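import Pool.Agent.Helper65_PV.Stmts

/-! # BL: Blaschke selection -/

set_option autoImplicit false

open MeasureTheory Metric Set Filter Topology TopologicalSpace

namespace PV.H42

/-- a limit of convex compact sets is convex -/
theorem convex_of_tendsto {n : ℕ} (F : ℕ → NonemptyCompacts (E n)) (T : NonemptyCompacts (E n))
    (hF : ∀ j, Convex ℝ (F j : Set (E n))) (hT : Tendsto F atTop (𝓝 T)) :
    Convex ℝ (T : Set (E n)) := by
  intro x hx y hy a b ha hb hab
  have hcl : IsClosed (T : Set (E n)) := T.isCompact.isClosed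
  rw [← hcl.closure_eq, Metric.mem_closure_iff]
  intro e he
  have h1 : ∀ᶠ j in atTop, dist (F j) T < e / 2 :=
    (tendsto_iff_dist_tendsto_zero.1 hT).eventually (gt_mem_nhds (by linarith))
  obtain ⟨j, hj⟩ := h1.exists
  have hfin : hausdorffEDist (T : Set (E n)) (F j : Set (E n)) ≠ ⊤ :=
    hausdorffEDist_ne_top_of_nonempty_of_bounded T.nonempty (F j).nonempty
      T.isCompact.isBounded (F j).isCompact.isBounded
  have hfin' : hausdorffEDist (F j : Set (E n)) (T : Set (E n)) ≠ ⊤ := by
    rw [hausdorffEDist_comm]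
    exact hfin
  have hlt : hausdorffDist (F j : Set (E n)) (T : Set (E n)) < e / 2 := hj
  have hlt' : hausdorffDist (T : Set (E n)) (F j : Set (E n)) < e / 2 := by
    rw [hausdorffDist_comm]
    exact hlt
  obtain ⟨x', hx', hxx⟩ := exists_dist_lt_of_hausdorffDist_lt hx hlt' hfin
  obtain ⟨y', hy', hyy⟩ := exists_dist_lt_of_hausdorffDist_lt hy hlt' hfin
  obtain ⟨z, hz, hzz⟩ := exists_dist_lt_of_hausdorffDist_lt (hF j hx' hy' ha hb hab) hlt hfin'
  refine ⟨z, hz, ?_⟩
  have h2 : dist (a • x + b • y) (a • x' + b • y') ≤ e / 2 := by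
    calc dist (a • x + b • y) (a • x' + b • y') ≤ dist (a • x) (a • x') + dist (b • y) (b • y') :=
          dist_add_add_le _ _ _ _
      _ = a * dist x x' + b * dist y y' := by
          rw [dist_smul₀, dist_smul₀, Real.norm_of_nonneg ha, Real.norm_of_nonneg hb]
      _ ≤ a * (e / 2) + b * (e / 2) := by gcongr
      _ = e / 2 := by rw [← add_mul, hab, one_mul]
  calc dist (a • x + b • y) z ≤ dist (a • x + b • y) (a • x' + b • y') +
        dist (a • x' + b • y') z := dist_triangle _ _ _
    _ < e / 2 + e / 2 := add_lt_add_of_le_of_lt h2 hzz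
    _ = e := by ring

/-- a convex body as a nonempty compact set -/
def nc {n : ℕ} (L : ConvexBody (E n)) : NonemptyCompacts (E n) :=
  ⟨⟨(L : Set (E n)), L.isCompact⟩, L.nonempty⟩

theorem dist_nc {n : ℕ} (L M : ConvexBody (E n)) : dist (nc L) (nc M) = dist L M := rfl

theorem bl : BLStmt := by
  intro n R L hL
  have hcpt := NonemptyCompacts.isCompact_subsets_of_isCompact
    (isCompact_closedBall (0 : E n) R)
  obtain ⟨T, hTm, φ, hφ, hT⟩ := hcpt.tendsto_subseq (x := fun j => nc (L j)) (fun j => hL j)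
  have hconv : Convex ℝ (T : Set (E n)) :=
    convex_of_tendsto (fun j => nc (L (φ j))) T (fun j => (L (φ j)).convex) hT
  refine ⟨⟨(T : Set (E n)), hconv, T.isCompact, T.nonempty⟩, φ, hφ, ?_, hTm⟩
  rw [tendsto_iff_dist_tendsto_zero] at hT ⊢
  exact hT

end PV.H42
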