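import Pool.Agent.Helper65_PV.Stmts

/-! # SC: strictly convex bodies are dense (ball hulls) -/

set_option autoImplicit false

open MeasureTheory Metric Set Filter Topology

namespace PV.H42

/-- the ball hull of radius `R` -/
def bh {n : ℕ} (R : ℝ) (K : Set (E n)) : Set (E n) :=
  {x | ∀ c : E n, K ⊆ closedBall c R → x ∈ closedBall c R}

theorem subset_bh {n : ℕ} (R : ℝ) (K : Set (E n)) : K ⊆ bh R K := fun _ hx _ hc => hc hx

theorem bh_eq {n : ℕ} (R : ℝ) (K : Set (E n)) :
    bh R K = ⋂ c ∈ {c : E n | K ⊆ closedBall c R}, closedBall c R := by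
  ext x
  simp only [bh, mem_iInter, mem_ofPred_eq]

theorem isClosed_bh {n : ℕ} (R : ℝ) (K : Set (E n)) : IsClosed (bh R K) := by
  rw [bh_eq]
  exact isClosed_biInter fun c _ => isClosed_closedBall

theorem convex_bh {n : ℕ} (R : ℝ) (K : Set (E n)) : Convex ℝ (bh R K) := by
  rw [bh_eq]
  exact convex_iInter₂ fun c _ => convex_closedBall c R

theorem norm_comb {n : ℕ} (x y c : E n) (a b : ℝ) (hab : a + b = 1) :
    ‖a • x + b • y - c‖ ^ 2 = a * ‖x - c‖ ^ 2 + b * ‖y - c‖ ^ 2 - a * b * ‖x - y‖ ^ 2 := by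
  have h1 : a • x + b • y - c = a • (x - c) + b • (y - c) := by
    have : c = (a + b) • c := by rw [hab, one_smul]
    rw [smul_sub, smul_sub]
    conv_lhs => rw [this]
    rw [add_smul]
    abel
  have h2 : x - y = (x - c) - (y - c) := by abel
  rw [h1, h2]
  generalize x - c = X
  generalize y - c = Y
  rw [norm_add_sq_real, norm_sub_sq_real, norm_smul, norm_smul, inner_smul_left,
    inner_smul_right, mul_pow, mul_pow, Real.norm_eq_abs, Real.norm_eq_abs, sq_abs, sq_abs]
  simp only [conj_trivial]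
  have hb : b = 1 - a := by linarith
  subst hb
  ring

theorem strictConvex_bh {n : ℕ} {R : ℝ} (hR : 0 ≤ R) (K : Set (E n)) :
    StrictConvex ℝ (bh R K) := by
  intro x hx y hy hxy a b ha hb hab
  set δ := a * b * ‖x - y‖ ^ 2 with hδ
  have hxy' : 0 < ‖x - y‖ := norm_pos_iff.2 (sub_ne_zero.2 hxy)
  have hδ0 : 0 < δ := by positivity
  have hsq : Real.sqrt (R ^ 2 - δ) < R ∨ R ^ 2 < δ := by
    rcases lt_or_ge (R ^ 2) δ with h | h
    · exact Or.inr h
    · left
      rw [Real.sqrt_lt' (by nlinarith)]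
      linarith
  rw [mem_interior]
  by_cases hne : ∃ c : E n, K ⊆ closedBall c R
  · obtain ⟨c₀, hc₀⟩ := hne
    have hkey : ∀ c : E n, K ⊆ closedBall c R → ‖a • x + b • y - c‖ ^ 2 ≤ R ^ 2 - δ := by
      intro c hc
      have h1 := hx c hc
      have h2 := hy c hc
      rw [mem_closedBall, dist_eq_norm] at h1 h2
      rw [norm_comb x y c a b hab]
      have h3 : ‖x - c‖ ^ 2 ≤ R ^ 2 := by gcongr
      have h4 : ‖y - c‖ ^ 2 ≤ R ^ 2 := by gcongr
      nlinarith
    have hpos : 0 ≤ R ^ 2 - δ := le_trans (sq_nonneg _) (hkey c₀ hc₀)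
    have hlt : Real.sqrt (R ^ 2 - δ) < R := by
      rcases hsq with h | h
      · exact h
      · linarith
    refine ⟨ball (a • x + b • y) (R - Real.sqrt (R ^ 2 - δ)), ?_, isOpen_ball,
      mem_ball_self (by linarith)⟩
    intro z hz c hc
    have h1 : ‖a • x + b • y - c‖ ≤ Real.sqrt (R ^ 2 - δ) := Real.le_sqrt_of_sq_le (hkey c hc)
    rw [mem_ball, dist_eq_norm] at hz
    rw [mem_closedBall, dist_eq_norm]
    calc ‖z - c‖ = ‖(z - (a • x + b • y)) + (a • x + b • y - c)‖ := by congr 1; abel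
      _ ≤ ‖z - (a • x + b • y)‖ + ‖a • x + b • y - c‖ := norm_add_le _ _
      _ ≤ R := by linarith
  · refine ⟨Set.univ, ?_, isOpen_univ, mem_univ _⟩
    intro z _ c hc
    exact absurd ⟨c, hc⟩ hne

/-- for large radius the ball hull is close to the set -/
theorem bh_subset {n : ℕ} {K : Set (E n)} (hK : IsCompact K) (hc : Convex ℝ K) (hne : K.Nonempty)
    {D δ R : ℝ} (hD : ∀ x ∈ K, ∀ y ∈ K, dist x y ≤ D) (hδ : 0 < δ) (hRδ : δ ≤ R)
    (hR : D ^ 2 + δ ^ 2 ≤ 2 * R * δ) : bh R K ⊆ cthickening (2 * δ) K := by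
  intro x hx
  by_contra hcon
  obtain ⟨p, hp, hpx⟩ := exists_norm_eq_iInf_of_complete_convex hne hK.isComplete hc x
  have hin := (norm_eq_iInf_iff_real_inner_le_zero hc hp).1 hpx
  have hfar : 2 * δ < ‖x - p‖ := by
    by_contra h
    push Not at h
    apply hcon
    apply mem_cthickening_of_dist_le x p (2 * δ) K hp
    rw [dist_eq_norm]
    exact h
  have hpos : 0 < ‖x - p‖ := by linarith
  set u : E n := (‖x - p‖)⁻¹ • (x - p) with hu
  have hu1 : ‖u‖ = 1 := by
    rw [hu, norm_smul, norm_inv, norm_norm]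
    exact inv_mul_cancel₀ hpos.ne'
  have hxu : x - p = ‖x - p‖ • u := by
    rw [hu, smul_smul, mul_inv_cancel₀ hpos.ne', one_smul]
  have hsub : K ⊆ closedBall (p - (R - δ) • u) R := by
    intro y hy
    rw [mem_closedBall, dist_eq_norm]
    have h1 : y - (p - (R - δ) • u) = (y - p) + (R - δ) • u := by abel
    have h2 : inner ℝ (y - p) u ≤ 0 := by
      rw [hu, inner_smul_right, real_inner_comm]
      exact mul_nonpos_of_nonneg_of_nonpos (inv_nonneg.2 hpos.le) (hin y hy)
    have h3 : ‖y - p‖ ≤ D := by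
      rw [← dist_eq_norm]
      exact hD y hy p hp
    have h4 : ‖(y - p) + (R - δ) • u‖ ^ 2 ≤ R ^ 2 := by
      rw [norm_add_sq_real, inner_smul_right, norm_smul, hu1, mul_one, Real.norm_eq_abs, sq_abs]
      have h5 : (R - δ) * inner ℝ (y - p) u ≤ 0 :=
        mul_nonpos_of_nonneg_of_nonpos (by linarith) h2
      have h6 : ‖y - p‖ ^ 2 ≤ D ^ 2 := by gcongr
      nlinarith
    rw [h1]
    exact abs_le_of_sq_le_sq' h4 (by linarith) |>.2
  have h7 := hx _ hsub
  rw [mem_closedBall, dist_eq_norm] at h7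
  have h8 : x - (p - (R - δ) • u) = (‖x - p‖ + (R - δ)) • u := by
    rw [add_smul, ← hxu]
    abel
  rw [h8, norm_smul, hu1, mul_one, Real.norm_eq_abs, abs_of_nonneg (by linarith)] at h7
  linarith

theorem sc : SCStmt := by
  intro n K₀ e he
  set δ := e / 8 with hδ
  have hδ0 : 0 < δ := by positivity
  set K₁ : Set (E n) := cthickening δ (K₀ : Set (E n)) with hK₁
  have hc1 : IsCompact K₁ := K₀.isCompact.cthickening
  have hcv1 : Convex ℝ K₁ := K₀.convex.cthickening δ
  have hsub1 : (K₀ : Set (E n)) ⊆ K₁ := self_subset_cthickening _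
  have hne1 : K₁.Nonempty := K₀.nonempty.mono hsub1
  set D := Metric.diam K₁ with hD
  have hDd : ∀ x ∈ K₁, ∀ y ∈ K₁, dist x y ≤ D := fun x hx y hy =>
    dist_le_diam_of_mem hc1.isBounded hx hy
  have hD0 : 0 ≤ D := diam_nonneg
  set R := D + δ + (D ^ 2 + δ ^ 2) / (2 * δ) with hR
  have hq : 0 ≤ (D ^ 2 + δ ^ 2) / (2 * δ) := by positivity
  have hRδ : δ ≤ R := by linarith
  have hR0 : 0 ≤ R := by linarith
  have hRR : D ^ 2 + δ ^ 2 ≤ 2 * R * δ := by
    have h1 : 2 * R * δ = 2 * (D + δ) * δ + (D ^ 2 + δ ^ 2) := by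
      rw [hR]
      field_simp
    rw [h1]
    nlinarith
  have hsub := bh_subset hc1 hcv1 hne1 hDd hδ0 hRδ hRR
  have hcpt : IsCompact (bh R K₁) := by
    apply IsCompact.of_isClosed_subset hc1.cthickening (isClosed_bh R K₁) hsub
  refine ⟨⟨bh R K₁, convex_bh R K₁, hcpt, hne1.mono (subset_bh R K₁)⟩, ?_,
    strictConvex_bh hR0 K₁, ?_⟩
  · have h1 : (K₀ : Set (E n)) ⊆ bh R K₁ := hsub1.trans (subset_bh R K₁)
    have h2 : bh R K₁ ⊆ cthickening (3 * δ) (K₀ : Set (E n)) := by
      refine hsub.trans ?_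
      have := cthickening_cthickening_subset (by linarith : (0 : ℝ) ≤ 2 * δ) hδ0.le
        (K₀ : Set (E n))
      refine this.trans ?_
      apply cthickening_mono
      linarith
    have h3 : dist K₀ (⟨bh R K₁, convex_bh R K₁, hcpt, hne1.mono (subset_bh R K₁)⟩ :
        ConvexBody (E n)) ≤ 4 * δ := by
      rw [← ConvexBody.hausdorffDist_coe]
      apply hausdorffDist_le_of_mem_dist (by linarith)
      · intro x hx
        exact ⟨x, h1 hx, by rw [dist_self]; linarith⟩
      · intro x hx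
        have h4 := h2 hx
        have h5 : x ∈ thickening (4 * δ) (K₀ : Set (E n)) :=
          cthickening_subset_thickening' (by linarith) (by linarith) _ h4
        rw [mem_thickening_iff] at h5
        obtain ⟨z, hz, hzx⟩ := h5
        exact ⟨z, hz, hzx.le⟩
    calc _ ≤ 4 * δ := h3
      _ < e := by rw [hδ]; linarith
  · show (interior (bh R K₁)).Nonempty
    obtain ⟨x, hx⟩ := K₀.nonempty
    refine ⟨x, interior_mono (subset_bh R K₁) ?_⟩
    have h1 : thickening δ (K₀ : Set (E n)) ⊆ interior K₁ :=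
      interior_maximal (thickening_subset_cthickening _ _) isOpen_thickening
    exact h1 (self_subset_thickening hδ0 _ hx)

end PV.H42
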